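import Pool.Agent.T2h13.LG.Norm
import Pool.Agent.Y172.Cov3

/-!
Norms of pluricanonical forms.
-/

set_option autoImplicit false
set_option linter.overlappingInstances false
set_option linter.unusedSectionVars false
set_option maxHeartbeats 4000000
set_option synthInstance.maxHeartbeats 400000

open FF Pool.Agent.W603.LV Pool.Agent.W602.GT Pool.Agent.W619.PQ Pool.Agent.Y172
open IntermediateField
open Module (finrank)
open Pool.Agent.T2h13.LG (conj_over norm_ord_aux)

namespace Pool.Agent.T2h13.GA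

section

variable {k K F Ω : Type} [Field k] [CharZero k] [Field K] [Field F] [Algebra k K] [Algebra k F]
  [Algebra K F] [IsScalarTower k K F] [FiniteDimensional K F] [Field Ω] [Algebra k Ω]
  [Algebra K Ω] [Algebra F Ω] [IsScalarTower K F Ω] [IsScalarTower k K Ω] [IsScalarTower k F Ω]
  [FiniteDimensional K Ω] [FiniteDimensional F Ω] [IsGalois K Ω]

theorem norm_ge' (q : Place k K) {f : F} (hf : f ≠ 0) {c : ℤ}
    (h : ∀ (w : Place k F) (e : ℕ), Over w q e → (e : ℤ) * c ≤ w.ord f) {Q : Place k Ω} {e : ℕ}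
    (hQ : Over Q q e) : (finrank K F : ℤ) * c ≤ q.ord (Algebra.norm K f) := by
  have hpos : (0 : ℤ) < finrank F Ω := by
    have : 0 < finrank F Ω := Module.finrank_pos
    exact_mod_cast this
  have he : (0 : ℤ) < e := by exact_mod_cast hQ.1
  have h1 := norm_ord_aux (Ω := Ω) q hf hQ
  have h2 : ((finrank K Ω : ℕ) : ℤ) * (e * c) ≤ ∑ σ : Ω ≃ₐ[K] Ω, Q.ord (σ (algebraMap F Ω f)) := by
    have h3 : ∑ _σ : Ω ≃ₐ[K] Ω, ((e : ℤ) * c) = (finrank K Ω : ℤ) * (e * c) := by
      rw [Finset.sum_const, Finset.card_univ, nsmul_eq_mul, ← Nat.card_eq_fintype_card,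
        IsGalois.card_aut_eq_finrank]
    rw [← h3]
    refine Finset.sum_le_sum fun σ _ => ?_
    obtain ⟨w, e1, e2, hw, he1, hσ⟩ := conj_over (F := F) hQ σ
    rw [hσ]
    have h4 := h w e2 hw
    have h5 : e = e1 * e2 := by
      obtain ⟨z, hz0, hz⟩ := q.surj
      have h6 := hσ (algebraMap K F z)
      rw [← IsScalarTower.algebraMap_apply K F Ω, σ.commutes, hQ.2, hw.2, hz, mul_one, mul_one]
        at h6
      exact_mod_cast h6
    rw [h5]
    push_cast
    have h6 : (0 : ℤ) ≤ e1 := Int.natCast_nonneg _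
    calc (e1 : ℤ) * e2 * c = e1 * (e2 * c) := by ring
      _ ≤ e1 * w.ord f := mul_le_mul_of_nonneg_left h4 h6
  rw [← h1] at h2
  have h3 : (finrank K Ω : ℤ) = finrank K F * finrank F Ω := by
    exact_mod_cast (Module.finrank_mul_finrank K F Ω).symm
  rw [h3] at h2
  have h4 : (finrank F Ω : ℤ) * e * (finrank K F * c) ≤
      (finrank F Ω : ℤ) * e * q.ord (Algebra.norm K f) := by
    calc _ = (finrank K F : ℤ) * finrank F Ω * (e * c) := by ring
      _ ≤ _ := h2
      _ = _ := by ring
  exact le_of_mul_le_mul_left h4 (mul_pos hpos he)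

end

section

variable {k K F : Type} [Field k] [CharZero k] [Field K] [Field F] [Algebra k K] [Algebra k F]
  [Algebra K F] [IsScalarTower k K F] [FiniteDimensional K F]

/-- **The order of a norm is bounded below.** -/
theorem norm_ge (q : Place k K) {f : F} {c : ℤ}
    (h : ∀ (w : Place k F) (e : ℕ), Over w q e → Ge w (e * c) f) :
    Ge q (finrank K F * c) (Algebra.norm K f) := by
  by_cases hf : f = 0
  · left
    rw [hf, Algebra.norm_zero]
  right
  have hcK : CharZero K := charZero_of_injective_algebraMap (algebraMap k K).injective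
  have hN : Normal K (normalClosure K F (AlgebraicClosure F)) := inferInstance
  have hG : IsGalois K (normalClosure K F (AlgebraicClosure F)) := ⟨⟩
  have hfd : FiniteDimensional F (normalClosure K F (AlgebraicClosure F)) :=
    Module.Finite.of_restrictScalars_finite K F _
  have hT : IsScalarTower k F (normalClosure K F (AlgebraicClosure F)) :=
    IsScalarTower.of_algebraMap_eq fun c => by
      apply Subtype.ext
      change algebraMap k (AlgebraicClosure F) c = _
      rfl
  obtain ⟨Q, e, hQ⟩ := exists_above (K := K) (L := normalClosure K F (AlgebraicClosure F)) q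
  exact norm_ge' (Ω := normalClosure K F (AlgebraicClosure F)) q hf
    (fun w e hw => (h w e hw).resolve_left hf) hQ

end

section

variable {k K L : Type} [Field k] [CharZero k] [Field K] [Field L] [Algebra k K] [Algebra k L]
  [Algebra K L] [IsScalarTower k K L] [FiniteDimensional K L] {n : ℕ}

/-- **Norms of pluricanonical forms.** -/
theorem descendN [Algebra.EssFiniteType k K] [Algebra.EssFiniteType k L]
    (hn : Algebra.trdeg k K = n) {M : ℕ} {P : Place k K} (hP : Divisorial n P)
    {Δ : ℚ} (hint : ∃ z : ℤ, (M : ℚ) * Δ = z)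
    {W : (Fin n → Derivation k L L) → L} (hW : IsPluri M W)
    (hreg : ∀ (Q : Place k L) (e : ℕ), Over Q P e →
      ∀ G : Fin n → Derivation k L L, (∀ i, DerReg Q (G i)) →
        W G = 0 ∨ -(M * (1 - e * (1 - (Δ : ℝ)))) ≤ (Q.ord (W G) : ℝ))
    {y : Fin n → K} {E : Fin n → Derivation k K K} (hy : IsTranscendenceBasis k y)
    (hE : ∀ i j, E i (y j) = if i = j then 1 else 0) {E' : Fin n → Derivation k L L}
    (hE' : ∀ i f, E' i (algebraMap K L f) = algebraMap K L (E i f)) {s : K} (hs0 : s ≠ 0)
    (hs : s = Algebra.norm K (W E'))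
    {G : Fin n → Derivation k K K} (hG : ∀ i, DerReg P (G i)) :
    (Matrix.of fun i j => G i (y j) : Matrix (Fin n) (Fin n) K).det ^ (M * finrank K L) * s = 0 ∨
      -((M * finrank K L : ℕ) * Δ) ≤
        P.ord ((Matrix.of fun i j => G i (y j) : Matrix (Fin n) (Fin n) K).det ^
          (M * finrank K L) * s) := by
  classical
  have hnL : Algebra.trdeg k L = n := trdeg_up (K := K) hn
  obtain ⟨R, hR⟩ : ∃ R, R = finrank K L := ⟨_, rfl⟩
  have hR0 : 0 < R := by
    rw [hR]
    exact Module.finrank_pos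
  obtain ⟨yP, EP, i0, hl⟩ := exists_loc hn hP
  choose EP' hEP' using fun i => exists_lift (L := L) hn (EP i)
  obtain ⟨z, hz⟩ := hint
  obtain ⟨B, hB⟩ : ∃ B : Matrix (Fin n) (Fin n) K, B = Matrix.of fun i j => E i (yP j) :=
    ⟨_, rfl⟩
  -- `G = C EP`, `C = (G y) B`
  have hC : (Matrix.of fun i j => G i (yP j) : Matrix (Fin n) (Fin n) K).det =
      (Matrix.of fun i j => G i (y j) : Matrix (Fin n) (Fin n) K).det * B.det := by
    rw [← Matrix.det_mul]
    congr 1
    ext i j
    rw [Matrix.of_apply, Matrix.mul_apply, hB]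
    have h1 := Pool.Agent.W73.PG.PULL.expand y hy E hE (G i)
    conv_lhs => rw [← h1]
    rw [sum_smul_apply]
    rfl
  have hB0 : B.det ≠ 0 := by
    intro h0
    have h1 : (Matrix.of fun i j => EP i (yP j) : Matrix (Fin n) (Fin n) K).det =
        (Matrix.of fun i j => EP i (y j) : Matrix (Fin n) (Fin n) K).det * B.det := by
      rw [← Matrix.det_mul]
      congr 1
      ext i j
      rw [Matrix.of_apply, Matrix.mul_apply, hB]
      have h1 := Pool.Agent.W73.PG.PULL.expand y hy E hE (EP i)
      conv_lhs => rw [← h1]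
      rw [sum_smul_apply]
      rfl
    have h2 : (Matrix.of fun i j => EP i (yP j) : Matrix (Fin n) (Fin n) K) = 1 := by
      ext i j
      rw [Matrix.of_apply, hl.dual, Matrix.one_apply]
    rw [h2, Matrix.det_one, h0, mul_zero] at h1
    exact one_ne_zero h1
  have hWB : W E' = algebraMap K L B.det ^ M * W EP' := by
    have h1 := pluri_coord (hl.bas.algebraMap_comp (A := L)) (lift_dual hl.dual hEP') hW E'
    rw [h1]
    congr 2
    rw [hB, RingHom.map_det]
    congr 1
    ext i j
    rw [Matrix.of_apply, RingHom.mapMatrix_apply, Matrix.map_apply, Matrix.of_apply]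
    exact hE' i (yP j)
  have hkey : ∀ (Q : Place k L) (e : ℕ), Over Q P e →
      Ge Q (e * (M * P.ord B.det - z)) (W E') := by
    intro Q e hQ
    have hQd : Divisorial n Q := divisorial_up hQ hP
    have h1 := down_ge hnL hQ hQd hl hEP' hW (hreg Q e hQ)
    by_cases h0 : W EP' = 0
    · left
      rw [hWB, h0, mul_zero]
    right
    have h2 := h1.resolve_left h0
    have hBL : algebraMap K L B.det ≠ 0 := by rwa [Ne, map_eq_zero]
    have h3 : -(e * z : ℝ) ≤ (Q.ord (W EP') : ℝ) := by
      have h4 : (M : ℝ) * (Δ : ℝ) = z := by exact_mod_cast hz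
      have h5 : (-(M * (1 - e * (1 - (Δ : ℝ)))) + M - e * M : ℝ) = -(e * (M * Δ)) := by ring
      rw [h5, h4] at h2
      exact h2
    have h6 : -(e * z : ℤ) ≤ Q.ord (W EP') := by exact_mod_cast h3
    rw [hWB, Q.ord_mul (pow_ne_zero _ hBL) h0, Q.ord_pow, hQ.2]
    have h7 : (e : ℤ) * (M * P.ord B.det - z) = M * (e * P.ord B.det) + -(e * z) := by ring
    rw [h7]
    omega
  have h8 := norm_ge P hkey
  rw [← hs, ← hR] at h8
  rw [← hR]
  have h9 : Ge P 0 (Matrix.of fun i j => G i (yP j) : Matrix (Fin n) (Fin n) K).det :=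
    ge_det P _ _ (fun _ _ => 0) (fun a b => hG a _ (hl.reg b)) fun σ => by simp
  by_cases h0 : (Matrix.of fun i j => G i (y j) : Matrix (Fin n) (Fin n) K).det ^ (M * R) *
      s = 0
  · exact Or.inl h0
  right
  have hG0 : (Matrix.of fun i j => G i (y j) : Matrix (Fin n) (Fin n) K).det ^ (M * R) ≠ 0 :=
    left_ne_zero_of_mul h0
  have h10 := h8.resolve_left hs0
  rw [P.ord_mul hG0 hs0, P.ord_pow]
  by_cases hMR : M * R = 0
  · have hM0 : M = 0 := by
      rcases Nat.mul_eq_zero.1 hMR with h | h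
      · exact h
      · omega
    have hz0 : z = 0 := by
      rw [hM0] at hz
      have : (z : ℚ) = 0 := by rw [← hz]; simp
      exact_mod_cast this
    rw [hMR]
    rw [hM0, hz0] at h10
    simp only [Nat.cast_zero, zero_mul, sub_zero, mul_zero] at h10
    simp only [Nat.cast_zero, zero_mul, neg_zero, zero_add]
    exact_mod_cast h10
  have hdet0 : (Matrix.of fun i j => G i (y j) : Matrix (Fin n) (Fin n) K).det ≠ 0 :=
    fun h => hG0 (by rw [h, zero_pow hMR])
  have h11 : (Matrix.of fun i j => G i (yP j) : Matrix (Fin n) (Fin n) K).det ≠ 0 := by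
    rw [hC]
    exact mul_ne_zero hdet0 hB0
  have h12 := h9.resolve_left h11
  rw [hC, P.ord_mul hdet0 hB0] at h12
  have h13 : (-((M * R : ℕ) * Δ) : ℚ) = ((-(R * z) : ℤ) : ℚ) := by
    push_cast
    rw [← hz]
    ring
  rw [h13]
  have h14 : -(R * z) ≤ ((M * R : ℕ) : ℤ) *
      P.ord (Matrix.of fun i j => G i (y j) : Matrix (Fin n) (Fin n) K).det + P.ord s := by
    push_cast
    have h15 : (0 : ℤ) ≤ (M : ℤ) * R := by positivity
    nlinarith
  exact_mod_cast h14

end

end Pool.Agent.T2h13.GA
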