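import Pool.Agent.T2h13.LG.Ab3
import Pool.Agent.T2h13.GA.Norm
import Pool.Agent.R887.Frm

/-!
Sections on a pair which is dominated by a fibration, whose ratios are functions on the base.
-/

set_option autoImplicit false
set_option linter.overlappingInstances false
set_option linter.unusedSectionVars false
set_option maxHeartbeats 4000000
set_option synthInstance.maxHeartbeats 400000

open FF Pool.Agent.W603.LV Pool.Agent.W602.GT Pool.Agent.W619.PQ Pool.Agent.Y172
open Module (finrank)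
open Pool.Agent.T2h13.AF (rho rho_apply prodForm prodForm_pluri prod_adapted prod_hor ai_pow
  exists_den' basis_app ord_E index_le Tame trdeg_fib)
open Pool.Agent.T2h13.LG

namespace Pool.Agent.T2h13.GA

section

variable {K : Type} [Field K] [Algebra ℂ K] [Algebra.EssFiniteType ℂ K] {n r : ℕ}
  {L : Type} [Field L] [Algebra ℂ L] [Algebra.EssFiniteType ℂ L] [Algebra L K]
  [IsScalarTower ℂ L K] [FiniteDimensional L K]
  {Z : Type} [Field Z] [Algebra ℂ Z] [Algebra.EssFiniteType ℂ Z] [Algebra Z L] [Algebra Z K]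
  [IsScalarTower ℂ Z L] [IsScalarTower ℂ Z K] [IsScalarTower Z L K] {N' : ℕ}
  {y : Fin (N' + 1) → L}

/-- **The sections given by the forms on the base.** -/
theorem lowerN (hK : Algebra.trdeg ℂ K = (n + r : ℕ)) (hZ : Algebra.trdeg ℂ Z = n)
    {E : IntermediateField ℂ K} (hE : Algebra.trdeg ℂ E = n)
    (hZE : ∀ z : Z, algebraMap Z K z ∈ E) (hEZ : ∀ e ∈ E, IsAlgebraic Z e)
    (hy : NormalModel y) {Δ : Place ℂ L → ℚ} (hΔ : Effective y Δ) {BR : Place ℂ Z → Prop}
    {B : Place ℂ K → Prop} (hk : KodGe ℂ Z n BR n) {N : ℕ} (hN : 1 ≤ N)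
    {φ : (Fin r → Derivation E K K) → K} (hφ : IsPluri N φ)
    (hφv : ∀ Q : Place ℂ K, Divisorial (n + r) Q → (∃ z ∈ E, Q.ord z ≠ 0) →
      ∀ U : Fin r → Derivation E K K, ((∀ a, ∀ f, Q.Reg (U a f / f)) ∨
        (¬ B Q ∧ ∀ a, ∀ f, Q.Reg f → Q.Reg (U a f))) → Q.Reg (φ U))
    {D1 : Fin r → Derivation E K K} (hφ0 : φ D1 ≠ 0) (hT : Tame E y Δ r N φ)
    (hbd : ∀ (P : Place ℂ L) (Q : Place ℂ K) (e : ℕ) (R : Place ℂ Z) (e' : ℕ),
      IsPrimeDivisor y P → Over Q P e → Over Q R e' → B Q ∨ BR R → 1 ≤ Δ P)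
    {x0 : Fin (n + r) → L} {E0 : Fin (n + r) → Derivation ℂ L L}
    (hx0 : IsTranscendenceBasis ℂ x0) (hE0 : ∀ i j, E0 i (x0 j) = if i = j then 1 else 0) :
    ∃ m0 : ℕ, 1 ≤ m0 ∧
      ∃ ω : Fin (n + 1) → (Fin (n + r) → Derivation ℂ L L) → L,
        (∀ j, IsSection y (n + r) m0 (m0 • Δ) (ω j)) ∧ ω 0 E0 ≠ 0 ∧
          ∃ u : Fin n → Z, AlgebraicIndependent ℂ u ∧
            ∀ i, ω i.succ E0 = algebraMap Z L (u i) * ω 0 E0 := by
  classical
  have hL : Algebra.trdeg ℂ L = (n + r : ℕ) :=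
     Pool.Agent.Y184.NT.trdeg_below (K := K) hK
  have hEC : CharZero E := charZero_of_injective_algebraMap (algebraMap ℂ E).injective
  obtain ⟨N0, hN0, η, hη, D0, hD0, hai⟩ := hk
  obtain ⟨t, ε, ht, hε⟩ := exists_crd hZ
  obtain ⟨x, U, hx, hU⟩ := exists_crd (trdeg_fib hK hE)
  obtain ⟨d0, hd0, hden⟩ := exists_den' hΔ
  -- the values on the frames
  have hvalφ : φ D1 = (Matrix.of fun i j => D1 i (x j)).det ^ N * φ U :=
    pluri_coord hx hU hφ D1
  have hφU : φ U ≠ 0 := by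
    intro h0
    rw [hvalφ, h0, mul_zero] at hφ0
    exact hφ0 rfl
  have hval : ∀ j, η j D0 = (Matrix.of fun i j => D0 i (t j)).det ^ N0 * η j ε :=
    fun j => pluri_coord ht hε (hη j).1 D0
  have hc0 : (Matrix.of fun i j => D0 i (t j)).det ^ N0 ≠ 0 := by
    intro h0
    rw [hval, h0, zero_mul] at hD0
    exact hD0 rfl
  have hη0 : η 0 ε ≠ 0 := by
    intro h0
    rw [hval, h0, mul_zero] at hD0
    exact hD0 rfl
  have hai' : AlgebraicIndependent ℂ (fun i : Fin n => η i.succ ε / η 0 ε) := by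
    have e1 : (fun i : Fin n => η i.succ D0 / η 0 D0) = fun i : Fin n => η i.succ ε / η 0 ε := by
      funext i
      rw [hval i.succ, hval 0, mul_div_mul_left _ _ hc0]
    rwa [e1] at hai
  -- the frame upstairs
  obtain ⟨z, hz⟩ : ∃ z : Fin (n + r) → K, z = Fin.append (fun j => algebraMap Z K (t j)) x :=
    ⟨_, rfl⟩
  have hzb : IsTranscendenceBasis ℂ z := by
    rw [hz]
    exact basis_app hE hZE ht hx
  choose G0 hG0 using fun i : Fin (n + r) =>
    exists_der _ hzb fun j => if i = j then 1 else 0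
  let W : Fin (n + 1) → (Fin (n + r) → Derivation ℂ K K) → K := fun j D =>
    (prodForm t ε x U N0 N (η j) φ D) ^ d0
  have hWp : ∀ j, IsPluri (N0 * N * d0) (W j) := fun j =>
    pluri_pow (prodForm_pluri t ε x U N0 N (η j) φ) d0
  have hWG : ∀ j, W j G0 = (algebraMap Z K (η j ε) ^ N * φ U ^ N0) ^ d0 := by
    intro j
    change (prodForm t ε x U N0 N (η j) φ G0) ^ d0 = _
    unfold prodForm
    rw [← hz]
    have h1 : (Matrix.of fun i j => G0 i (z j) : Matrix (Fin (n + r)) (Fin (n + r)) K) = 1 := by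
      ext i j
      rw [Matrix.of_apply, hG0, Matrix.one_apply]
    rw [h1, Matrix.det_one, one_pow, one_mul]
  have hreg : ∀ P ∈ {P : Place ℂ L | IsPrimeDivisor y P}, ∀ (Q : Place ℂ K) (e : ℕ),
      Over Q P e → ∀ j, ∀ G : Fin (n + r) → Derivation ℂ K K, (∀ i, DerReg Q (G i)) →
        W j G = 0 ∨ -((N0 * N * d0 : ℕ) * (1 - e * (1 - (Δ P : ℝ)))) ≤
          (Q.ord (W j G) : ℝ) := by
    intro P hP Q e hQ j G hG
    have hPd : Divisorial (n + r) P := hP.divisorial hy hL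
    have hQd : Divisorial (n + r) Q := divisorial_up hQ hPd
    have hMpos : (0 : ℝ) ≤ (N0 * N * d0 : ℕ) := Nat.cast_nonneg _
    by_cases htriv : ∃ f : Z, Q.ord (algebraMap Z K f) ≠ 0
    · obtain ⟨e', P', hP'⟩ := exists_over Q htriv
      obtain ⟨hv1, hv2⟩ := prod_vert hK hZ hZE ht hε hx hU (hη j) hφ hφv hQd hP' hG
      by_cases hb : B Q ∨ BR P'
      · -- the boundary
        have hΔP := hbd P Q e P' e' hP hQ hP' hb
        rcases hv2.pow d0 with h3 | h3
        · exact Or.inl h3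
        right
        have h5 : ((((d0 : ℤ) * (-(N0 * N : ℕ))) : ℤ) : ℝ) ≤ Q.ord (W j G) := by
          exact_mod_cast h3
        refine le_trans ?_ h5
        have h6 : (1 : ℝ) ≤ (Δ P : ℝ) := by exact_mod_cast hΔP
        have h8 : (0 : ℝ) ≤ (e : ℝ) := Nat.cast_nonneg e
        have h9 : (e : ℝ) * (1 - Δ P) ≤ 0 := by nlinarith
        have h10 := mul_le_mul_of_nonneg_left h9 hMpos
        push_cast at h10 ⊢
        nlinarith
      push Not at hb
      have h3 := (hv1 hb.2 hb.1).pow d0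
      have h4 := index_le hQ hP'
      rcases h3 with h3 | h3
      · exact Or.inl h3
      right
      have h5 : ((((d0 : ℤ) * ((N0 * N : ℕ) * ((e' : ℤ) - 1)) : ℤ)) : ℝ) ≤ Q.ord (W j G) := by
        exact_mod_cast h3
      refine le_trans ?_ h5
      have h6 : (0 : ℝ) ≤ (Δ P : ℝ) := by exact_mod_cast hΔ.1 P hP
      have h7 : (e : ℝ) ≤ e' := by exact_mod_cast h4
      have h8 : (0 : ℝ) ≤ (e : ℝ) := Nat.cast_nonneg e
      have h9 : (e : ℝ) * (1 - Δ P) - 1 ≤ e' - 1 := by nlinarith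
      have h10 := mul_le_mul_of_nonneg_left h9 hMpos
      push_cast at h10 ⊢
      nlinarith
    · push Not at htriv
      have hEt : ∀ z ∈ E, Q.ord z = 0 := fun z hz => ord_E hZE hEZ htriv hz
      have hreal : ∀ U' : Fin r → Derivation E K K, (∀ a, DerReg Q (rho E (U' a))) →
          φ U' = 0 ∨ (N : ℚ) * (e * (1 - Δ P) - 1) ≤ Q.ord (φ U') :=
        hT Q P e hP hQ hEt
      have h3 := prod_hor hK hZE t ε hx hU (N0 := N0) (η j) hφ hQd htriv
        (c0 := ⌈(N : ℚ) * (e * (1 - Δ P) - 1)⌉) (fun U' hU' => (hreal U' hU').imp_right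
          fun h => Int.ceil_le.2 h) hG
      rcases h3.pow d0 with h3 | h3
      · exact Or.inl h3
      right
      have h5 : ((((d0 : ℤ) * (N0 * ⌈(N : ℚ) * (e * (1 - Δ P) - 1)⌉) : ℤ)) : ℝ) ≤
          Q.ord (W j G) := by
        exact_mod_cast h3
      refine le_trans ?_ h5
      have h6 : ((N : ℝ) * (e * (1 - Δ P) - 1)) ≤
          ((⌈(N : ℚ) * (e * (1 - Δ P) - 1)⌉ : ℤ) : ℝ) := by
        have h7 := Int.le_ceil ((N : ℚ) * (e * (1 - Δ P) - 1))
        exact_mod_cast h7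
      have h8 : (0 : ℝ) ≤ (d0 : ℝ) * N0 := by positivity
      have h9 := mul_le_mul_of_nonneg_left h6 h8
      push_cast at h9 ⊢
      nlinarith
  -- the norms
  choose E' hE' using fun i => exists_lift (L := K) hL (E0 i)
  have hWE : ∀ j, W j E' = (Matrix.of fun i j => E' i (z j) :
      Matrix (Fin (n + r)) (Fin (n + r)) K).det ^ (N0 * N * d0) * W j G0 :=
    fun j => pluri_coord hzb hG0 (hWp j) E'
  have hdz : (Matrix.of fun i j => E' i (z j) :
      Matrix (Fin (n + r)) (Fin (n + r)) K).det ^ (N0 * N * d0) ≠ 0 := by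
    intro h0
    have h1 := pluri_coord hzb hG0
      (Pool.Agent.R887.frm_pluri (fun j => algebraMap L K (x0 j)) (N0 * N * d0) 1) E'
    rw [h0, zero_mul, Pool.Agent.R887.frm_self (lift_dual hE0 hE')] at h1
    exact one_ne_zero h1
  have hηK : algebraMap Z K (η 0 ε) ≠ 0 := (map_ne_zero _).2 hη0
  have hW0 : W 0 E' ≠ 0 := by
    rw [hWE, hWG]
    exact mul_ne_zero hdz (pow_ne_zero _ (mul_ne_zero (pow_ne_zero _ hηK) (pow_ne_zero _ hφU)))
  have hWrat : ∀ j : Fin (n + 1), W j E' =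
      algebraMap L K (algebraMap Z L ((η j ε / η 0 ε) ^ (N * d0))) * W 0 E' := by
    intro j
    rw [hWE j, hWE 0, hWG, hWG, ← IsScalarTower.algebraMap_apply Z L K, map_pow, map_div₀]
    rw [mul_pow, mul_pow, ← pow_mul, div_pow]
    have h1 : algebraMap Z K (η 0 ε) ^ (N * d0) ≠ 0 := pow_ne_zero _ hηK
    generalize (Matrix.of fun i j => E' i (z j) : Matrix (Fin (n + r)) (Fin (n + r)) K).det ^
      (N0 * N * d0) = a
    rw [← pow_mul]
    field_simp
    ring
  obtain ⟨M, hM⟩ : ∃ M, M = N0 * N * d0 := ⟨_, rfl⟩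
  obtain ⟨R, hR⟩ : ∃ R, R = finrank L K := ⟨_, rfl⟩
  have hR0 : 0 < R := by
    rw [hR]
    exact Module.finrank_pos
  have hM0 : 0 < M := by
    rw [hM]
    exact Nat.mul_pos (Nat.mul_pos hN0 hN) hd0
  have hnj : ∀ j : Fin (n + 1), Algebra.norm L (W j E') =
      algebraMap Z L (((η j ε / η 0 ε) ^ (N * d0)) ^ R) * Algebra.norm L (W 0 E') := by
    intro j
    rw [hWrat j, map_mul, Algebra.norm_algebraMap, ← hR]
    simp only [map_pow]
  have hn0 : Algebra.norm L (W 0 E') ≠ 0 := Algebra.norm_ne_zero_iff.2 hW0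
  have hηj : ∀ j, η j ε ≠ 0 := by
    intro j
    refine Fin.cases hη0 (fun i => ?_) j
    intro h0
    have h1 := hai'.ne_zero i
    rw [h0, zero_div] at h1
    exact h1 rfl
  have hnj0 : ∀ j, Algebra.norm L (W j E') ≠ 0 := by
    intro j
    rw [hnj j]
    refine mul_ne_zero ((map_ne_zero _).2 (pow_ne_zero _ (pow_ne_zero _ ?_))) hn0
    exact div_ne_zero (hηj j) hη0
  have hEv : (Matrix.of fun i j => E0 i (x0 j) : Matrix (Fin (n + r)) (Fin (n + r)) L).det = 1 := by
    have : (Matrix.of fun i j => E0 i (x0 j) : Matrix (Fin (n + r)) (Fin (n + r)) L) = 1 := by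
      ext i j
      rw [Matrix.of_apply, hE0, Matrix.one_apply]
    rw [this, Matrix.det_one]
  refine ⟨M * R, Nat.mul_pos hM0 hR0,
    fun j G => (Matrix.of fun i j => G i (x0 j) : Matrix (Fin (n + r)) (Fin (n + r)) L).det ^
      (M * R) * Algebra.norm L (W j E'), fun j => ⟨?_, fun P hP G hG => ?_⟩, ?_,
    fun i => ((η i.succ ε / η 0 ε) ^ (N * d0)) ^ R, ?_, fun i => ?_⟩
  · intro A D
    have e1 : (Matrix.of fun a b => (∑ j, A a j • D j) (x0 b)) =
        A * Matrix.of fun a b => D a (x0 b) := by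
      ext a b
      rw [Matrix.of_apply, Matrix.mul_apply, sum_smul_apply]
      rfl
    change (Matrix.of fun a b => (∑ j, A a j • D j) (x0 b)).det ^ (M * R) * _ = _
    rw [e1, Matrix.det_mul, mul_pow, mul_assoc]
  · have h1 := descendN (K := L) (L := K) hL (hP.divisorial hy hL)
      (M := M) (Δ := Δ P) (by
        rw [hM]
        exact hden P hP (N0 * N)) (W := W j) (by
        rw [hM]
        exact hWp j) (fun Q e hQ G hG => by
        rw [hM]
        exact hreg P hP Q e hQ j G hG) hx0 hE0 hE' (hnj0 j) rfl hG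
    rw [← hR] at h1
    rcases h1 with h2 | h2
    · exact Or.inl h2
    · right
      simpa using h2
  · change (Matrix.of fun i j => E0 i (x0 j) : Matrix (Fin (n + r)) (Fin (n + r)) L).det ^
      (M * R) * Algebra.norm L (W 0 E') ≠ 0
    rw [hEv, one_pow, one_mul]
    exact hn0
  · exact ai_pow (ai_pow hai' (Nat.mul_pos hN hd0).ne') hR0.ne'
  · change (Matrix.of fun i j => E0 i (x0 j) : Matrix (Fin (n + r)) (Fin (n + r)) L).det ^
      (M * R) * Algebra.norm L (W i.succ E') = _ * ((Matrix.of fun i j => E0 i (x0 j) :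
        Matrix (Fin (n + r)) (Fin (n + r)) L).det ^ (M * R) * Algebra.norm L (W 0 E'))
    rw [hEv, one_pow, one_mul, one_mul]
    exact hnj i.succ

end

end Pool.Agent.T2h13.GA
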