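import Pool.Agent.Y172.R7
import Pool.Agent.T2h13.GA.Low

/-!
Sections with zeros along finitely many vertical prime divisors.
-/

set_option autoImplicit false
set_option linter.overlappingInstances false
set_option linter.unusedSectionVars false
set_option maxHeartbeats 4000000
set_option synthInstance.maxHeartbeats 400000

open FF Pool.Agent.W603.LV Pool.Agent.W602.GT Pool.Agent.W619.PQ Pool.Agent.Y172

namespace Pool.Agent.T2h13.GA

section

variable {Z L : Type} [Field Z] [Algebra ℂ Z] [Field L] [Algebra ℂ L] [Algebra Z L]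
  [IsScalarTower ℂ Z L] {n : ℕ}

theorem basis_of_ai (hZ : Algebra.trdeg ℂ Z = n) {u : Fin n → Z} (hu : AlgebraicIndependent ℂ u) :
    IsTranscendenceBasis ℂ u := by
  refine hu.isTranscendenceBasis_of_trdeg_le_of_finite (le_of_eq ?_)
  rw [hZ, Cardinal.mk_fin]

theorem mem_acl_of (hZ : Algebra.trdeg ℂ Z = n) {u : Fin n → Z} (hu : AlgebraicIndependent ℂ u)
    (z : Z) : algebraMap Z L z ∈ acl ℂ (Set.range fun i => algebraMap Z L (u i)) := by
  rw [mem_acl]
  have h1 := (basis_of_ai hZ hu).isAlgebraic_field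
  have h2 := h1.isAlgebraic z
  have hmap : (IntermediateField.adjoin ℂ (Set.range u)).map (IsScalarTower.toAlgHom ℂ Z L) =
      IntermediateField.adjoin ℂ (Set.range fun i => algebraMap Z L (u i)) := by
    rw [IntermediateField.adjoin_map, ← Set.range_comp]
    rfl
  have hmem : ∀ x : IntermediateField.adjoin ℂ (Set.range u), algebraMap Z L x ∈
      IntermediateField.adjoin ℂ (Set.range fun i => algebraMap Z L (u i)) := by
    intro x
    rw [← hmap]
    exact ⟨x, x.2, rfl⟩
  let f : IntermediateField.adjoin ℂ (Set.range u) →+*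
      IntermediateField.adjoin ℂ (Set.range fun i => algebraMap Z L (u i)) :=
    { toFun := fun x => ⟨algebraMap Z L x, hmem x⟩
      map_one' := Subtype.ext (by simp)
      map_mul' := fun a b => Subtype.ext (by simp)
      map_zero' := Subtype.ext (by simp)
      map_add' := fun a b => Subtype.ext (by simp) }
  exact h2.ringHom_of_comp_eq f (algebraMap Z L) f.injective (by ext x; rfl)

end

section

variable {L : Type} [Field L] [Algebra ℂ L] {n w : ℕ} {N' : ℕ} {y : Fin (N' + 1) → L}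
  {Z : Type} [Field Z] [Algebra ℂ Z] [Algebra Z L] [IsScalarTower ℂ Z L]

/-- **Sections with zeros along finitely many vertical prime divisors.** -/
theorem exists_pos (hy : NormalModel y) (hL : Algebra.trdeg ℂ L = w) (hZ : Algebra.trdeg ℂ Z = n)
    {Δ : Place ℂ L → ℚ} {x0 : Fin w → L} {E0 : Fin w → Derivation ℂ L L}
    (hx0 : IsTranscendenceBasis ℂ x0) (hE0 : ∀ i j, E0 i (x0 j) = if i = j then 1 else 0)
    {m0 : ℕ} (hm0 : 1 ≤ m0) {ω : Fin (n + 1) → (Fin w → Derivation ℂ L L) → L}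
    (hω : ∀ j, IsSection y w m0 (m0 • Δ) (ω j)) (h0 : ω 0 E0 ≠ 0) {u : Fin n → Z}
    (hu : AlgebraicIndependent ℂ u) (hrat : ∀ i, ω i.succ E0 = algebraMap Z L (u i) * ω 0 E0)
    (T : Finset (Place ℂ L))
    (hT : ∀ P ∈ T, IsPrimeDivisor y P ∧ ∃ z : Z, P.ord (algebraMap Z L z) ≠ 0) :
    ∃ a : ℕ, 1 ≤ a ∧ ∃ G, IsSection y w a (a • Δ) G ∧ G E0 ≠ 0 ∧
      ∀ P ∈ T, OrdGe P G (-(a * Δ P) + 1) := by
  have hrat' : (fun i : Fin n => ω i.succ E0 / ω 0 E0) = fun i => algebraMap Z L (u i) := by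
    funext i
    rw [hrat, mul_div_assoc, div_self h0, mul_one]
  have hne : ∀ j, ω j E0 ≠ 0 := by
    intro j
    refine Fin.cases h0 (fun i => ?_) j
    rw [hrat]
    exact mul_ne_zero ((_root_.map_ne_zero _).2 (hu.ne_zero i)) h0
  obtain ⟨b, G, h1, h2, h3⟩ := exists_zeros (k := n) (m0 := m0) (B := m0 • Δ) hy hL hx0 hE0 hω hne T
    (fun P hP => by
      obtain ⟨hP1, z, hz⟩ := hT P hP
      refine ⟨hP1, fun hcon => hz ?_⟩
      rw [hrat'] at hcon
      by_cases hz0 : z = 0
      · rw [hz0, map_zero, P.ord_zero]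
      · exact hcon _ (mem_acl_of hZ hu z) ((_root_.map_ne_zero _).2 hz0))
  refine ⟨b * m0 + m0, by omega, fun D => G D * ω 0 D, ?_, mul_ne_zero h2 h0, fun P hP => ?_⟩
  · refine (h1.mul (hω 0)).of_le rfl fun P _ => le_of_eq ?_
    simp only [Pi.add_apply, Pi.smul_apply]
    simp only [nsmul_eq_mul]
    push_cast
    ring
  · refine ((h3 P hP).mul ((hω 0).2 P (hT P hP).1)).mono (le_of_eq ?_)
    simp only [Pi.smul_apply]
    simp only [nsmul_eq_mul]
    push_cast
    ring

end

end Pool.Agent.T2h13.GA
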