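import Pool.Agent.Y172.Defs

/-!
Rational divisors on normal projective varieties, their sections, Iitaka dimension and numerical
dimension, and the same for the generic fibre of a rational map.
-/

set_option autoImplicit false
set_option linter.unusedSectionVars false

open FF Pool.Agent.W602.GT Pool.Agent.Y172 Filter

namespace Pool.Agent.T2h13.GA

section

variable {L : Type} [Field L] [Algebra ℂ L] {N : ℕ}

/-- `D` is a `ℚ`-divisor on `X`: only finitely many coefficients are not zero. -/
def IsDivisor (y : Fin (N + 1) → L) (D : Place ℂ L → ℚ) : Prop :=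
  {P | IsPrimeDivisor y P ∧ D P ≠ 0}.Finite

/-- The rational function `f` on `X` is a section of the `ℚ`-divisor `D`: it is zero, or
`div f + D ≥ 0`. -/
def IsSec (y : Fin (N + 1) → L) (D : Place ℂ L → ℚ) (f : L) : Prop :=
  f = 0 ∨ ∀ P, IsPrimeDivisor y P → -(D P) ≤ P.ord f

/-- `C` is a canonical divisor of `X`, `w` being the dimension of `X`: the divisor of a rational
`w`-form. -/
def IsCanonical (y : Fin (N + 1) → L) (w : ℕ) (C : Place ℂ L → ℚ) : Prop :=
  ∃ ω : (Fin w → Derivation ℂ L L) → L, IsPluri 1 ω ∧ ∀ P, IsPrimeDivisor y P → OrdEq P ω (C P)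

/-- The `ℚ`-divisor `M` is pseudo-effective: for some effective divisor `A` there are sections
`f ≠ 0` of `t M + A` for arbitrarily large `t`. -/
def PseudoEffective (y : Fin (N + 1) → L) (M : Place ℂ L → ℚ) : Prop :=
  ∃ A, Effective y A ∧ ∀ t₀ : ℕ, ∃ t : ℕ, t₀ ≤ t ∧ ∃ f : L, f ≠ 0 ∧ IsSec y (t • M + A) f

/-- The dimension of the space of the sections of the `ℚ`-divisor `D`. -/
noncomputable def secDim (y : Fin (N + 1) → L) (D : Place ℂ L → ℚ) : ℕ :=
  Module.finrank ℂ (Submodule.span ℂ {f | IsSec y D f})

open scoped Classical in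
/-- The Iitaka dimension of the `ℚ`-divisor `D`: it is `⊥` if `m D` has only the section `0` for all
`m ≥ 1` such that `m D` is integral, and otherwise the largest `k` such that the upper limit of
`h⁰ (m D) / m ^ k` over these `m` is positive. -/
noncomputable def iitakaDim (y : Fin (N + 1) → L) (D : Place ℂ L → ℚ) : WithBot ℕ :=
  if ∀ m : ℕ, 1 ≤ m → Integral y (m • D) → secDim y (m • D) = 0 then ⊥ else
    ((sSup {k : ℕ | 0 < limsup (fun m : ℕ => (secDim y (m • D) : ENNReal) / (m : ENNReal) ^ k)
      (atTop ⊓ 𝓟 {m : ℕ | 1 ≤ m ∧ Integral y (m • D)})} : ℕ) : WithBot ℕ)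

/-- The numerical dimension of the `ℚ`-divisor `D` with respect to the divisor `A`: the upper limit
of `log h⁰ (m D + A) / log m` over the `m ≥ 1` such that `m D + A` is integral. -/
noncomputable def numDim (y : Fin (N + 1) → L) (D A : Place ℂ L → ℚ) : EReal :=
  limsup (fun m : ℕ => ENNReal.log (secDim y (m • D + A) : ENNReal) / (Real.log m : EReal))
    (atTop ⊓ 𝓟 {m : ℕ | 1 ≤ m ∧ Integral y (m • D + A)})

/-- The rational function `f` on `X` is a section of the restriction of the `ℚ`-divisor `D` to the
generic fibre of the rational map `X ⇢ Z` given by the subfield `Z`: it is zero, or `div f + D ≥ 0`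
along all prime divisors of `X` which dominate `Z`. -/
def IsFibSec (Z : IntermediateField ℂ L) (y : Fin (N + 1) → L) (D : Place ℂ L → ℚ) (f : L) : Prop :=
  f = 0 ∨ ∀ P, IsPrimeDivisor y P → (∀ z ∈ Z, P.ord z = 0) → -(D P) ≤ P.ord f

/-- The Iitaka dimension of the restriction of `D` to the generic fibre of `X ⇢ Z` is at least `k`:
for some `m ≥ 1` there are `k + 1` sections of `m D` on the generic fibre, whose ratios are `k`
algebraically independent functions over `Z`. -/
def FibreIitakaGe (Z : IntermediateField ℂ L) (y : Fin (N + 1) → L) (D : Place ℂ L → ℚ) (k : ℕ) :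
    Prop :=
  ∃ m : ℕ, 1 ≤ m ∧ ∃ v : Fin (k + 1) → L, (∀ i, IsFibSec Z y (m • D) (v i)) ∧ v 0 ≠ 0 ∧
    AlgebraicIndependent Z fun i : Fin k => v i.succ / v 0

/-- The numerical dimension of the restriction of `D` to the generic fibre `G` of `X ⇢ Z` is at most
`k`: for all effective divisors `A`, the dimension of the space of the sections of `m D + A` on `G`
over the ground field `Z` of `G` is bounded by a multiple of `m ^ k`. -/
def FibreNumLe (Z : IntermediateField ℂ L) (y : Fin (N + 1) → L) (D : Place ℂ L → ℚ) (k : ℕ) :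
    Prop :=
  ∀ A, Effective y A → ∃ C : ℕ, ∀ (m l : ℕ) (f : Fin l → L), 1 ≤ m →
    (∀ i, IsFibSec Z y (m • D + A) (f i)) → LinearIndependent Z f → l ≤ C * m ^ k

end

end Pool.Agent.T2h13.GA
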