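import Pool.Agent.T2h13.GA.Main

/-!
The Iitaka dimension and the numerical dimension of a divisor in terms of pluricanonical forms.
-/

set_option autoImplicit false
set_option linter.overlappingInstances false
set_option linter.unusedSectionVars false
set_option maxHeartbeats 4000000
set_option synthInstance.maxHeartbeats 400000

open FF Pool.Agent.W603.LV Pool.Agent.W602.GT Pool.Agent.W619.PQ Pool.Agent.Y172

namespace Pool.Agent.T2h13.GA

section

variable {L : Type} [Field L] [Algebra ℂ L] {w : ℕ} {N' : ℕ} {y : Fin (N' + 1) → L}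

/-- the number of sections -/
theorem h0_eq_sec (hy : NormalModel y) (hL : Algebra.trdeg ℂ L = w) {C : Place ℂ L → ℚ}
    (hC : IsCanonical y w C) (D A : Place ℂ L → ℚ) (m : ℕ) :
    h0 y w m (m • (D - C) + A) = secDim y (m • D + A) := by
  obtain ⟨x0, E0, hx0, hE0⟩ := exists_crd hL
  have hfr0 : IsFrame E0 := fun D =>
    ⟨_, (Pool.Agent.W73.PG.PULL.expand _ hx0 E0 hE0 D).symm⟩
  obtain ⟨h, hh, -, hord⟩ := ordc hy hL hx0 hE0 hC
  have hhm : (h ^ m : L) ≠ 0 := pow_ne_zero _ hh
  let φ : secSub y w m (m • (D - C) + A) →ₗ[ℂ] L :=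
    { toFun := fun ω => (h ^ m)⁻¹ * (ω : (Fin w → Derivation ℂ L L) → L) E0
      map_add' := fun a b => by
        change _ * ((a : (Fin w → Derivation ℂ L L) → L) E0 +
          (b : (Fin w → Derivation ℂ L L) → L) E0) = _
        rw [mul_add]
      map_smul' := fun c a => by
        change _ * (c • (a : (Fin w → Derivation ℂ L L) → L) E0) = _
        rw [mul_smul_comm]
        rfl }
  have hφ : Function.Injective φ := by
    rw [← LinearMap.ker_eq_bot, LinearMap.ker_eq_bot']
    intro ω hω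
    refine Subtype.ext (pluri_zero hfr0 ω.2.1 ?_)
    exact (mul_eq_zero.1 hω).resolve_left (inv_ne_zero hhm)
  have hrange : (LinearMap.range φ : Set L) = {f | IsSec y (m • D + A) f} := by
    ext f
    constructor
    · rintro ⟨ω, rfl⟩
      by_cases h0 : (ω : (Fin w → Derivation ℂ L L) → L) E0 = 0
      · left
        change (h ^ m)⁻¹ * (ω : (Fin w → Derivation ℂ L L) → L) E0 = 0
        rw [h0, mul_zero]
      right
      intro P hP
      have h1 := ((hord P hP m _ ω.2.1 _).1 (ω.2.2 P hP)).resolve_left h0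
      change _ ≤ (P.ord ((h ^ m)⁻¹ * (ω : (Fin w → Derivation ℂ L L) → L) E0) : ℚ)
      rw [div_eq_inv_mul] at h1
      simp only [Pi.add_apply, Pi.smul_apply, Pi.sub_apply] at h1 ⊢
      simp only [nsmul_eq_mul] at h1 ⊢
      linarith
    · intro hf
      refine ⟨⟨Pool.Agent.R887.frm x0 m (h ^ m * f), Pool.Agent.R887.frm_pluri _ _ _,
        fun P hP => ?_⟩, ?_⟩
      · rw [hord P hP m _ (Pool.Agent.R887.frm_pluri _ _ _), Pool.Agent.R887.frm_self hE0]
        rcases hf with hf | hf
        · left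
          rw [hf, mul_zero]
        right
        rw [mul_div_cancel_left₀ _ hhm]
        have h1 := hf P hP
        simp only [Pi.add_apply, Pi.smul_apply, Pi.sub_apply] at h1 ⊢
        simp only [nsmul_eq_mul] at h1 ⊢
        linarith
      · change (h ^ m)⁻¹ * Pool.Agent.R887.frm x0 m (h ^ m * f) E0 = f
        rw [Pool.Agent.R887.frm_self hE0, ← mul_assoc, inv_mul_cancel₀ hhm, one_mul]
  rw [h0_eq]
  unfold secDim
  rw [← hrange, Submodule.span_eq, LinearMap.finrank_range_of_inj hφ]

/-- the coefficients of a canonical divisor are integers -/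
theorem can_int (hy : NormalModel y) (hL : Algebra.trdeg ℂ L = w) {C : Place ℂ L → ℚ}
    (hC : IsCanonical y w C) : Integral y C := by
  obtain ⟨η, hη, hηC⟩ := hC
  intro P hP
  obtain ⟨-, E, hE, hE0', hE1⟩ := hηC P hP
  exact ⟨P.ord (η E), hE1.symm⟩

theorem int_iff (hy : NormalModel y) (hL : Algebra.trdeg ℂ L = w) {C : Place ℂ L → ℚ}
    (hC : IsCanonical y w C) (D A : Place ℂ L → ℚ) (m : ℕ) :
    Integral y (m • (D - C) + A) ↔ Integral y (m • D + A) := by
  have h1 := can_int hy hL hC
  constructor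
  · intro h P hP
    obtain ⟨z, hz⟩ := h P hP
    obtain ⟨z', hz'⟩ := h1 P hP
    refine ⟨z + m * z', ?_⟩
    simp only [Pi.add_apply, Pi.smul_apply, Pi.sub_apply] at hz ⊢
    simp only [nsmul_eq_mul] at hz ⊢
    push_cast
    rw [← hz', ← hz]
    ring
  · intro h P hP
    obtain ⟨z, hz⟩ := h P hP
    obtain ⟨z', hz'⟩ := h1 P hP
    refine ⟨z - m * z', ?_⟩
    simp only [Pi.add_apply, Pi.smul_apply, Pi.sub_apply] at hz ⊢
    simp only [nsmul_eq_mul] at hz ⊢
    push_cast
    rw [← hz', ← hz]
    ring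

/-- **The Iitaka dimension.** -/
theorem kodaira_eq (hy : NormalModel y) (hL : Algebra.trdeg ℂ L = w) {C : Place ℂ L → ℚ}
    (hC : IsCanonical y w C) (D : Place ℂ L → ℚ) : kodairaDim y w (D - C) = iitakaDim y D := by
  have h1 : ∀ m : ℕ, h0 y w m (m • (D - C)) = secDim y (m • D) := by
    intro m
    have h2 := h0_eq_sec hy hL hC D 0 m
    rwa [add_zero, add_zero] at h2
  have h3 : ∀ m : ℕ, Integral y (m • (D - C)) ↔ Integral y (m • D) := by
    intro m
    have h2 := int_iff hy hL hC D 0 m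
    rwa [add_zero, add_zero] at h2
  have h4 : (∀ m : ℕ, 1 ≤ m → Integral y (m • (D - C)) → h0 y w m (m • (D - C)) = 0) ↔
      ∀ m : ℕ, 1 ≤ m → Integral y (m • D) → secDim y (m • D) = 0 := by
    simp only [h1, h3]
  unfold kodairaDim iitakaDim
  by_cases h5 : ∀ m : ℕ, 1 ≤ m → Integral y (m • D) → secDim y (m • D) = 0
  · rw [if_pos (h4.2 h5), if_pos h5]
  · rw [if_neg (fun h => h5 (h4.1 h)), if_neg h5]
    simp only [h1, h3]

/-- **The numerical dimension.** -/
theorem numerical_eq (hy : NormalModel y) (hL : Algebra.trdeg ℂ L = w) {C : Place ℂ L → ℚ}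
    (hC : IsCanonical y w C) (D A : Place ℂ L → ℚ) :
    numericalDim y w (D - C) A = numDim y D A := by
  unfold numericalDim numDim
  simp only [h0_eq_sec hy hL hC, int_iff hy hL hC]

end

end Pool.Agent.T2h13.GA
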