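import Pool.Agent.N162.GP.Sep
import Pool.Agent.T2h13.AF.Str
import Pool.Agent.T2h13.LG.Ab7
import Pool.Agent.T2h13.GA.Dim
import Pool.Agent.N999.SX.FG

/-!
Generalised abundance for the varieties which are dominated by a fibration with few forms.
-/

set_option autoImplicit false
set_option linter.overlappingInstances false
set_option linter.unusedSectionVars false
set_option maxHeartbeats 4000000
set_option synthInstance.maxHeartbeats 400000

open FF Pool.Agent.W603.LV Pool.Agent.W602.GT Pool.Agent.W619.PQ Pool.Agent.Y172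
open Pool.Agent.N145.SX (SepX)
open Pool.Agent.N162.BC Pool.Agent.N162.GP
open Module (finrank)
open Pool.Agent.T2h13.AF (base FewForms Tame HorLe NuLeZero)

namespace Pool.Agent.T2h13.GA

section

variable {K : Type} [Field K] [Algebra ℂ K] [Algebra.EssFiniteType ℂ K] {n r : ℕ}
  {L : Type} [Field L] [Algebra ℂ L] [Algebra L K]
  [IsScalarTower ℂ L K] [FiniteDimensional L K] {N' : ℕ} {y : Fin (N' + 1) → L}

/-- **Generalised abundance.** -/
theorem gen_few (hK : Algebra.trdeg ℂ K = (n + r : ℕ))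
    {E : IntermediateField ℂ K} (hE : Algebra.trdeg ℂ E = n)
    (hcl : ∀ z : K, IsAlgebraic E z → z ∈ E) {x : Fin n → E} (hx : IsTranscendenceBasis ℂ x)
    {g h : ℕ} (hS : SepX x (fun _ => False) g) (hh : 1 ≤ h)
    (hg : (h + 1) * finrank L (IntermediateField.adjoin L (E : Set K)) < g)
    (hfew : FewForms E r h) (hy : NormalModel y) {Δ : Place ℂ L → ℚ} (hΔ : Effective y Δ)
    {N : ℕ} (hN : 1 ≤ N) {φ : (Fin r → Derivation E K K) → K} (hφ : IsPluri N φ)
    (hφv : ∀ Q : Place ℂ K, Divisorial (n + r) Q → (∃ z ∈ E, Q.ord z ≠ 0) →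
      ∀ U : Fin r → Derivation E K K, (∀ a, ∀ f, Q.Reg f → Q.Reg (U a f)) → Q.Reg (φ U))
    (hφ0 : φ ≠ 0) (hT : Tame E y Δ r N φ)
    {C D M : Place ℂ L → ℚ} (hC : IsCanonical y (n + r) C) (hD : IsDivisor y D) {q a : ℕ}
    (hq : 1 ≤ q) (ha : 1 ≤ a)
    (hDM : ∀ P, IsPrimeDivisor y P → q * D P = a * (C P + Δ P) + M P)
    (hM : PseudoEffective y M) {k : ℕ} (hge : FibreIitakaGe (base L E) y D k)
    (hle : k = r ∨ FibreNumLe (base L E) y D k) :
    iitakaDim y D = ((n + k : ℕ) : WithBot ℕ) ∧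
      ∀ A, Effective y A → Integral y A → numDim y D A = ((n + k : ℕ) : EReal) := by
  have hessL : Algebra.EssFiniteType ℂ L := hy.ess
  have hessE : Algebra.EssFiniteType ℂ E := Pool.Agent.N999.SX.ess_any E
  have hL : Algebra.trdeg ℂ L = (n + r : ℕ) := Pool.Agent.Y184.NT.trdeg_below (K := K) hK
  obtain ⟨h1, h2, h3, h4⟩ := Pool.Agent.T2h13.AF.str_few (L := L) fPull hK hE hcl hx hS hh hg hfew
  have hessZ : Algebra.EssFiniteType ℂ (base L E) := Pool.Agent.N999.SX.ess_any (base L E)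
  obtain ⟨x0, E0, hx0, hE0⟩ := exists_crd hL
  obtain ⟨D1, hD1⟩ : ∃ D1, φ D1 ≠ 0 := by
    by_contra hcon
    push Not at hcon
    exact hφ0 (funext hcon)
  obtain ⟨m0, hm0, ω, hω, h0, u, hu, hrat⟩ := lowerN (Z := base L E) (B := fun _ => False)
    hK h2 hE (fun z => z.2) h3 hy hΔ h4 hN hφ (fun Q hQ hz U hU => by
      refine hφv Q hQ hz U fun a f hf => ?_
      rcases hU with hU | hU
      · by_cases hf0 : f = 0
        · rw [hf0, map_zero]
          exact Q.reg_zero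
        · have h5 := Q.reg_mul (hU a f) hf
          rwa [div_mul_cancel₀ _ hf0] at h5
      · exact hU.2 a f hf) hD1 hT (fun P Q e R e' _ _ _ hb => by
      rcases hb with hb | hb
      · exact absurd hb id
      · exact absurd hb id) hx0 hE0
  have h5 := gen_dims (Z := base L E) (k := k) hy hL h2 hΔ hx0 hE0 hm0 hω h0 hu hrat hC hD hq ha
    hDM hM hge hle
  rw [kodaira_eq hy hL hC] at h5
  exact ⟨h5.1, fun A hA hAi => by rw [← numerical_eq hy hL hC]; exact h5.2 A hA hAi⟩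

/-- **The section on the generic fibre.** -/
theorem tame_of_psef [Algebra.EssFiniteType ℂ L] (hr : 1 ≤ r)
    (hK : Algebra.trdeg ℂ K = (n + r : ℕ)) {E : IntermediateField ℂ K}
    (hE : Algebra.trdeg ℂ E = n) {Γ : Place E K → ℚ} (hν : NuLeZero E r Γ) (hy : NormalModel y)
    {Δ : Place ℂ L → ℚ} (hH : HorLe E r (n + r) Γ y Δ) {N : ℕ} (hN : 1 ≤ N)
    {φ : (Fin r → Derivation E K K) → K} (hφp : IsPluri N φ)
    (hφo : ∀ v : Place E K, Divisorial r v → ∀ U : Fin r → Derivation E K K,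
      (∀ a, DerReg v (U a)) → φ U = 0 ∨ -(N * Γ v) ≤ v.ord (φ U))
    {C : Place ℂ L → ℚ} (hC : IsCanonical y (n + r) C) (hps : PseudoEffective y (C + Δ)) :
    Tame E y Δ r N φ := by
  by_contra hT
  have hL : Algebra.trdeg ℂ L = (n + r : ℕ) := Pool.Agent.Y184.NT.trdeg_below (K := K) hK
  obtain ⟨x0, E0, hx0, hE0⟩ := exists_crd hL
  obtain ⟨h, hh, hCfin, hord⟩ := ordc hy hL hx0 hE0 hC
  obtain ⟨A, hA, hps⟩ := hps
  obtain ⟨m1, hm1⟩ := Pool.Agent.T2h13.LG.no_sections hr hK hE hν hy hA hH hN hφp hφo hT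
  obtain ⟨t, ht, f, hf0, hf⟩ := hps m1
  have h1 := hm1 t ht (Pool.Agent.R887.frm x0 t (h ^ t * f))
    ⟨Pool.Agent.R887.frm_pluri _ _ _, fun P hP => by
      rw [hord P hP t _ (Pool.Agent.R887.frm_pluri _ _ _), Pool.Agent.R887.frm_self hE0,
        mul_div_cancel_left₀ _ (pow_ne_zero _ hh)]
      right
      have h2 := hf.resolve_left hf0 P hP
      simp only [Pi.add_apply, Pi.smul_apply] at h2 ⊢
      simp only [nsmul_eq_mul] at h2 ⊢
      linarith⟩
  have h2 := congrFun h1 E0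
  rw [Pool.Agent.R887.frm_self hE0] at h2
  exact mul_ne_zero (pow_ne_zero _ hh) hf0 h2

end

end Pool.Agent.T2h13.GA
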