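import Pool.Agent.T2h13.GA.Big
import Pool.Agent.T2h13.GA.Up
import Pool.Agent.T2h13.GA.Defs

/-!
The Iitaka dimension and the numerical dimension of `a (K_X + Δ) + M`, `M` pseudo-effective, for a
fibration over a base such that `K_X + Δ` is at least the pull back of a big divisor.
-/

set_option autoImplicit false
set_option linter.overlappingInstances false
set_option linter.unusedSectionVars false
set_option maxHeartbeats 4000000
set_option synthInstance.maxHeartbeats 400000

open FF Pool.Agent.W603.LV Pool.Agent.W602.GT Pool.Agent.W619.PQ Pool.Agent.Y172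
open Pool.Agent.R887 (exists_ordc)
open Pool.Agent.T2h13.LG (ia ib)

namespace Pool.Agent.T2h13.GA

section

variable {L : Type} [Field L] [Algebra ℂ L] {w : ℕ} {N' : ℕ} {y : Fin (N' + 1) → L}

/-- the order of a form in terms of the canonical divisor -/
theorem ordc (hy : NormalModel y) (hL : Algebra.trdeg ℂ L = w) {x0 : Fin w → L}
    {E0 : Fin w → Derivation ℂ L L} (hx0 : IsTranscendenceBasis ℂ x0)
    (hE0 : ∀ i j, E0 i (x0 j) = if i = j then 1 else 0) {C : Place ℂ L → ℚ}
    (hC : IsCanonical y w C) :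
    ∃ h : L, h ≠ 0 ∧ IsDivisor y C ∧ ∀ P, IsPrimeDivisor y P → ∀ (m : ℕ)
      (ω : (Fin w → Derivation ℂ L L) → L), IsPluri m ω → ∀ r : ℚ, OrdGe P ω r ↔
        (ω E0 = 0 ∨ r ≤ m * C P + P.ord (ω E0 / h ^ m)) := by
  obtain ⟨η, hη, hηC⟩ := hC
  obtain ⟨c, hcfin, hc⟩ := exists_ordc hy hL hx0 hE0
  by_cases hp : ∃ P, IsPrimeDivisor y P
  · have hh : η E0 ≠ 0 := by
      intro h0
      obtain ⟨P, hP⟩ := hp
      obtain ⟨-, E, hE, hE0', -⟩ := hηC P hP
      apply hE0'
      rw [pluri_coord hx0 hE0 hη E, h0, mul_zero]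
    have hCP : ∀ P, IsPrimeDivisor y P → C P = c P + P.ord (η E0) := by
      intro P hP
      obtain ⟨h1, E, hE, hE0', hE1⟩ := hηC P hP
      have h2 := ((hc P hP 1 η hη (C P)).1 h1).resolve_left hh
      have h3 := (hc P hP 1 η hη (c P + P.ord (η E0))).2 (Or.inr (by push_cast; linarith)) E hE
      have h4 := h3.resolve_left hE0'
      rw [hE1] at h4
      push_cast at h2
      linarith
    refine ⟨η E0, hh, ?_, fun P hP m ω hω r => ?_⟩
    · refine (hcfin.union (finite_ord hy hh)).subset ?_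
      rintro P ⟨hP, h0⟩
      by_contra hcon
      simp only [Set.mem_union, Set.mem_ofPred_eq, not_or, not_and, not_not] at hcon
      apply h0
      rw [hCP P hP, hcon.1 hP, hcon.2 hP]
      simp
    · rw [hc P hP m ω hω r]
      by_cases h0 : ω E0 = 0
      · simp [h0]
      have h1 : P.ord (ω E0 / η E0 ^ m) = P.ord (ω E0) - m * P.ord (η E0) := by
        rw [P.ord_div h0 (pow_ne_zero _ hh), P.ord_pow]
      rw [h1, hCP P hP]
      push_cast
      constructor
      · rintro (h2 | h2)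
        · exact Or.inl h2
        · right
          linarith
      · rintro (h2 | h2)
        · exact Or.inl h2
        · right
          linarith
  · push Not at hp
    exact ⟨1, one_ne_zero, Set.finite_empty.subset fun P hP => hp P hP.1,
      fun P hP => absurd hP (hp P)⟩

/-- independent functions on the base and on the fibre -/
theorem ai_join' {Z : Type} [Field Z] [Algebra ℂ Z] [Algebra Z L] [IsScalarTower ℂ Z L] {n k : ℕ}
    {u : Fin n → Z} (hu : AlgebraicIndependent ℂ u) {v : Fin k → L}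
    (hv : AlgebraicIndependent Z v) :
    AlgebraicIndependent ℂ (fun i : Fin (n + k) =>
      Fin.addCases (motive := fun _ => L) (fun i => algebraMap Z L (u i)) v i) := by
  have h1 := AlgebraicIndependent.sumElim_comp (R := ℂ) (A := L) hu hv
  have h2 : (fun i : Fin (n + k) => Fin.addCases (motive := fun _ => L)
      (fun i => algebraMap Z L (u i)) v i) =
      Sum.elim v (algebraMap Z L ∘ u) ∘
      ((Equiv.sumComm (Fin n) (Fin k)).symm.symm ∘ finSumFinEquiv.symm) := by
    funext i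
    refine Fin.addCases (fun j => ?_) (fun b => ?_) i
    · simp
    · simp
  rw [h2]
  exact h1.comp _ ((Equiv.injective _).comp (Equiv.injective _))

end

section

variable {L : Type} [Field L] [Algebra ℂ L] {n r : ℕ} {N' : ℕ} {y : Fin (N' + 1) → L}
  {Z : IntermediateField ℂ L} [Algebra.EssFiniteType ℂ Z]

/-- **The dimensions of `a (K_X + Δ) + M`.** -/
theorem gen_dims (hy : NormalModel y) (hL : Algebra.trdeg ℂ L = (n + r : ℕ))
    (hZ : Algebra.trdeg ℂ Z = n) {Δ : Place ℂ L → ℚ} (hΔ : Effective y Δ)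
    {x0 : Fin (n + r) → L} {E0 : Fin (n + r) → Derivation ℂ L L}
    (hx0 : IsTranscendenceBasis ℂ x0) (hE0 : ∀ i j, E0 i (x0 j) = if i = j then 1 else 0)
    {m0 : ℕ} (hm0 : 1 ≤ m0) {ω : Fin (n + 1) → (Fin (n + r) → Derivation ℂ L L) → L}
    (hω : ∀ j, IsSection y (n + r) m0 (m0 • Δ) (ω j)) (h0 : ω 0 E0 ≠ 0) {u : Fin n → Z}
    (hu : AlgebraicIndependent ℂ u) (hrat : ∀ i, ω i.succ E0 = algebraMap Z L (u i) * ω 0 E0)
    {C D M : Place ℂ L → ℚ} (hC : IsCanonical y (n + r) C) (hD : IsDivisor y D) {q a : ℕ}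
    (hq : 1 ≤ q) (ha : 1 ≤ a)
    (hDM : ∀ P, IsPrimeDivisor y P → q * D P = a * (C P + Δ P) + M P)
    (hM : PseudoEffective y M) {k : ℕ} (hge : FibreIitakaGe Z y D k)
    (hle : k = r ∨ FibreNumLe Z y D k) :
    kodairaDim y (n + r) (D - C) = ((n + k : ℕ) : WithBot ℕ) ∧
      ∀ A, Effective y A → Integral y A →
        numericalDim y (n + r) (D - C) A = ((n + k : ℕ) : EReal) := by
  classical
  have hess := hy.ess
  obtain ⟨h, hh, hCfin, hord⟩ := ordc hy hL hx0 hE0 hC
  obtain ⟨A, hA, hps⟩ := hM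
  obtain ⟨N, hN, v, hv, hv0, hvi⟩ := hge
  -- forms from functions
  let Fm : ℕ → L → (Fin (n + r) → Derivation ℂ L L) → L := fun m g =>
    Pool.Agent.R887.frm x0 m (h ^ m * g)
  have hFmp : ∀ m g, IsPluri m (Fm m g) := fun m g => Pool.Agent.R887.frm_pluri _ _ _
  have hFmE : ∀ m g, Fm m g E0 = h ^ m * g := fun m g => Pool.Agent.R887.frm_self hE0 _ _
  have hFmo : ∀ P, IsPrimeDivisor y P → ∀ (m : ℕ) (g : L) (s : ℚ), (g = 0 ∨ s ≤ m * C P + P.ord g) →
      OrdGe P (Fm m g) s := by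
    intro P hP m g s hs
    rw [hord P hP m _ (hFmp m g), hFmE]
    rcases hs with hs | hs
    · left
      rw [hs, mul_zero]
    · right
      rwa [mul_div_cancel_left₀ _ (pow_ne_zero _ hh)]
  -- the functions
  have hvne : ∀ i, v i ≠ 0 := by
    intro i
    refine Fin.cases hv0 (fun i => ?_) i
    intro h1
    have h2 := hvi.ne_zero i
    rw [h1, zero_div] at h2
    exact h2 rfl
  let z : Fin (n + 1) → Z := Fin.cons 1 u
  have hz0 : ∀ j, z j ≠ 0 := by
    intro j
    refine Fin.cases ?_ (fun i => ?_) j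
    · exact one_ne_zero
    · exact hu.ne_zero i
  let f : Fin (n + k + 1) → L := fun j => algebraMap Z L (z (ia j)) * v (ib j)
  have hfne : ∀ j, f j ≠ 0 := fun j =>
    mul_ne_zero ((_root_.map_ne_zero _).2 (hz0 _)) (hvne _)
  have hfhor : ∀ j P, IsPrimeDivisor y P → (∀ z ∈ Z, P.ord z = 0) → -(N * D P) ≤ P.ord (f j) := by
    intro j P hP hPZ
    have h1 := (hv (ib j)).resolve_left (hvne _) P hP hPZ
    have h2 : P.ord (f j) = P.ord (v (ib j)) := by
      change P.ord (algebraMap Z L (z (ia j)) * v (ib j)) = _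
      have h3 : P.ord (algebraMap Z L (z (ia j))) = 0 := hPZ _ (z (ia j)).2
      rw [P.ord_mul ((_root_.map_ne_zero _).2 (hz0 _)) (hvne _), h3, zero_add]
    rw [h2]
    simpa using h1
  -- the bad prime divisors
  have hTfin : {P | IsPrimeDivisor y P ∧ (∃ z ∈ Z, P.ord z ≠ 0) ∧
      (D P ≠ 0 ∨ ∃ j, P.ord (f j) ≠ 0)}.Finite := by
    refine (hD.union (Set.finite_iUnion fun j => finite_ord hy (hfne j))).subset ?_
    rintro P ⟨h1, -, h2 | ⟨j, h2⟩⟩
    · exact Or.inl ⟨h1, h2⟩
    · exact Or.inr (Set.mem_iUnion.2 ⟨j, h1, h2⟩)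
  obtain ⟨a1, ha1, G, hG, hG0, hGT⟩ := exists_pos hy hL hZ hx0 hE0 hm0 hω h0 hu hrat
    hTfin.toFinset (fun P hP => by
      rw [Set.Finite.mem_toFinset] at hP
      obtain ⟨h1, ⟨z, hz, h2⟩, -⟩ := hP
      exact ⟨h1, ⟨z, hz⟩, h2⟩)
  obtain ⟨g, hg⟩ : ∃ g, g = G E0 / h ^ a1 := ⟨_, rfl⟩
  have hg0 : g ≠ 0 := by
    rw [hg]
    exact div_ne_zero hG0 (pow_ne_zero _ hh)
  have ha1' : (0 : ℚ) < a1 := by exact_mod_cast ha1
  have hq' : (0 : ℚ) < q := by exact_mod_cast hq
  have ha' : (0 : ℚ) < a := by exact_mod_cast ha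
  have hgo : ∀ P, IsPrimeDivisor y P → -(a1 * Δ P) ≤ a1 * C P + P.ord g := by
    intro P hP
    have h1 := ((hord P hP a1 G hG.1 _).1 (hG.2 P hP)).resolve_left hG0
    rw [hg]
    simpa using h1
  -- the divisor `Γ`
  obtain ⟨Γ, hΓdef⟩ : ∃ Γ : Place ℂ L → ℚ, ∀ P, Γ P = a / q * (Δ P + C P + P.ord g / a1) :=
    ⟨_, fun _ => rfl⟩
  have hΓ0 : ∀ P, IsPrimeDivisor y P → 0 ≤ Γ P := by
    intro P hP
    rw [hΓdef]
    refine mul_nonneg (div_nonneg ha'.le hq'.le) ?_
    have h1 := hgo P hP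
    have h2 : Δ P + C P + P.ord g / a1 = (a1 * Δ P + (a1 * C P + P.ord g)) / a1 := by
      field_simp
      ring
    rw [h2]
    exact div_nonneg (by linarith) ha1'.le
  have hΓ : Effective y Γ := by
    refine ⟨hΓ0, ((hΔ.2.union hCfin).union (finite_ord hy hg0)).subset ?_⟩
    rintro P ⟨hP, h1⟩
    by_contra hcon
    simp only [Set.mem_union, Set.mem_ofPred_eq, not_or, not_and, not_not] at hcon
    obtain ⟨⟨h2, h3⟩, h4⟩ := hcon
    apply h1
    rw [hΓdef, h2 hP, h3 hP, h4 hP]
    simp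
  have hΓT : ∀ P, IsPrimeDivisor y P → (∃ z ∈ Z, P.ord z ≠ 0) →
      (D P ≠ 0 ∨ ∃ j, P.ord (f j) ≠ 0) → Γ P ≠ 0 := by
    intro P hP h1 h2 h3
    have h4 := hGT P (by
      rw [Set.Finite.mem_toFinset]
      exact ⟨hP, h1, h2⟩)
    have h5 := ((hord P hP a1 G hG.1 _).1 h4).resolve_left hG0
    rw [← hg] at h5
    rw [hΓdef] at h3
    have h6 : (a / q : ℚ) ≠ 0 := (div_pos ha' hq').ne'
    have h7 := (mul_eq_zero.1 h3).resolve_left h6
    have h8 : a1 * Δ P + (a1 * C P + P.ord g) = 0 := by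
      have h9 : a1 * (Δ P + C P + P.ord g / a1) = a1 * Δ P + (a1 * C P + P.ord g) := by
        field_simp
        ring
      rw [← h9, h7, mul_zero]
    linarith
  have hDC : {P | IsPrimeDivisor y P ∧ (D - C) P ≠ 0}.Finite := by
    refine (hD.union hCfin).subset ?_
    rintro P ⟨hP, h1⟩
    by_contra hcon
    have h2 : D P = 0 := by
      by_contra h3
      exact hcon (Or.inl ⟨hP, h3⟩)
    have h3 : C P = 0 := by
      by_contra h3
      exact hcon (Or.inr ⟨hP, h3⟩)
    apply h1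
    rw [Pi.sub_apply, h2, h3, sub_zero]
  have ha1A : Effective y (a1 • A) := by
    refine ⟨fun P hP => ?_, hA.2.subset ?_⟩
    · rw [Pi.smul_apply]
      exact nsmul_nonneg (hA.1 P hP) _
    · rintro P ⟨h1, h2⟩
      refine ⟨h1, fun h3 => h2 ?_⟩
      rw [Pi.smul_apply, h3, smul_zero]
  -- pseudo-effectivity
  have hps' : ∀ m1 : ℕ, ∃ m : ℕ, m1 ≤ m ∧
      ∃ s, IsSection y (n + r) m (m • ((D - C) - Γ) + a1 • A) s ∧ s ≠ 0 := by
    intro m1
    obtain ⟨t, ht, b, hb0, hb⟩ := hps m1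
    refine ⟨q * a1 * t, ?_, Fm (q * a1 * t) (g ^ (t * a) * b ^ a1), ⟨hFmp _ _, fun P hP => ?_⟩, ?_⟩
    · have h1 : 1 ≤ q * a1 := Nat.mul_pos hq ha1
      nlinarith
    · refine hFmo P hP _ _ _ (Or.inr ?_)
      have h1 := hb.resolve_left hb0 P hP
      rw [P.ord_mul (pow_ne_zero _ hg0) (pow_ne_zero _ hb0), P.ord_pow, P.ord_pow]
      simp only [Pi.add_apply, Pi.smul_apply, Pi.sub_apply] at h1 ⊢
      simp only [nsmul_eq_mul] at h1 ⊢
      have h2 := hDM P hP
      have h3 : (q : ℚ) * a1 * Γ P = a * (a1 * (Δ P + C P) + P.ord g) := by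
        rw [hΓdef]
        field_simp
      push_cast
      have h4 : (q * a1 * t : ℚ) * (D P - C P - Γ P) =
          a1 * t * (q * D P) - q * a1 * t * C P - t * (q * a1 * Γ P) := by ring
      rw [h4, h3, h2]
      have h5 := mul_le_mul_of_nonneg_left h1 ha1'.le
      nlinarith
    · intro h1
      have h2 := congrFun h1 E0
      rw [hFmE] at h2
      exact mul_ne_zero (pow_ne_zero _ hh) (mul_ne_zero (pow_ne_zero _ hg0)
        (pow_ne_zero _ hb0)) h2
  -- the upper bound
  have hup : ∀ A, Effective y A → ∃ C0 : ℕ, ∀ m : ℕ, 1 ≤ m → ∀ (l : ℕ) (f : Fin l → L),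
      LinearIndependent ℂ f →
      (∀ i, ∃ ω, IsSection y (n + r) m (m • (D - C) + A) ω ∧ ω E0 = f i) →
      l ≤ C0 * m ^ (n + k) := by
    intro A hA
    rcases hle with hkr | hle
    · -- the trivial bound
      subst hkr
      exact upper (Z := L) (n := n + k) (r := 0) (M0 := 1) (k0 := 0) hy hL hL hDC hA hx0 hE0
        (fun m hm l f _ => by
          rw [pow_zero, mul_one]
          exact (Submodule.finrank_le _).trans (by rw [Module.finrank_self]))
    obtain ⟨C0, hC0⟩ := hle A hA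
    refine upper hy hL hZ hDC hA hx0 hE0 (M0 := C0) (k0 := k) fun m hm l f hf => ?_
    have h5 : FiniteDimensional Z (Submodule.span Z (Set.range f)) :=
      FiniteDimensional.span_of_finite Z (Set.finite_range _)
    obtain ⟨g', hg', -, hglin⟩ := Submodule.exists_fun_fin_finrank_span_eq Z (Set.range f)
    refine hC0 m _ (fun i => (h ^ m)⁻¹ * g' i) hm (fun i => ?_) ?_
    · obtain ⟨j, hj⟩ := hg' i
      obtain ⟨ω', hω', hωf⟩ := hf j
      by_cases h6 : g' i = 0
      · left
        rw [h6, mul_zero]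
      right
      intro P hP _
      have h7 : ω' E0 ≠ 0 := by
        rw [hωf, hj]
        exact h6
      have h8 := ((hord P hP m ω' hω'.1 _).1 (hω'.2 P hP)).resolve_left h7
      rw [hωf, hj, div_eq_inv_mul] at h8
      simp only [Pi.add_apply, Pi.smul_apply, Pi.sub_apply] at h8 ⊢
      simp only [nsmul_eq_mul] at h8 ⊢
      linarith
    · exact hglin.map' (LinearMap.mulLeft Z (h ^ m)⁻¹) (by
        rw [LinearMap.ker_eq_bot]
        exact fun a b hab => mul_left_cancel₀ (inv_ne_zero (pow_ne_zero _ hh)) hab)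
  -- the sections
  have hΩ : ∀ (j : Fin (n + k + 1)) (P : Place ℂ L), IsPrimeDivisor y P → Γ P = 0 →
      OrdGe P (Fm N (f j)) (-(N * (D - C) P)) := by
    intro j P hP hΓP
    refine hFmo P hP _ _ _ (Or.inr ?_)
    have h1 : -(N * D P) ≤ P.ord (f j) := by
      by_cases h2 : ∀ z ∈ Z, P.ord z = 0
      · exact hfhor j P hP h2
      · push Not at h2
        have h3 : ¬ (D P ≠ 0 ∨ ∃ j, P.ord (f j) ≠ 0) := fun h4 => hΓT P hP h2 h4 hΓP
        push Not at h3
        rw [h3.1, h3.2 j]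
        simp
    rw [Pi.sub_apply]
    linarith
  have hE1 : Fm N (f 0) E0 ≠ 0 := by
    rw [hFmE]
    exact mul_ne_zero (pow_ne_zero _ hh) (hfne 0)
  have hind : AlgebraicIndependent ℂ
      (fun i : Fin (n + k) => Fm N (f i.succ) E0 / Fm N (f 0) E0) := by
    have h1 := ai_join' hu hvi
    have h2 : (fun i : Fin (n + k) => Fm N (f i.succ) E0 / Fm N (f 0) E0) =
        (fun i : Fin (n + k) => Fin.addCases (motive := fun _ => L)
          (fun i => algebraMap Z L (u i)) (fun i : Fin k => v i.succ / v 0) i) := by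
      funext i
      rw [hFmE, hFmE, mul_div_mul_left _ _ (pow_ne_zero _ hh)]
      refine Fin.addCases (fun i => ?_) (fun l => ?_) i
      · have e1 : (ia (n := n) (k := k) (Fin.castAdd k i).succ) = i.succ := by
          simp [ia]
        have e2 : (ib (n := n) (k := k) (Fin.castAdd k i).succ) = 0 := by
          simp [ib]
        have e3 : (ia (n := n) (k := k) 0) = 0 := rfl
        have e4 : (ib (n := n) (k := k) 0) = 0 := rfl
        change algebraMap Z L (z (ia (Fin.castAdd k i).succ)) * v (ib (Fin.castAdd k i).succ) /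
          (algebraMap Z L (z (ia 0)) * v (ib 0)) = _
        rw [e1, e2, e3, e4, Fin.addCases_left, mul_div_mul_right _ _ hv0]
        simp [z]
      · have e1 : (ia (n := n) (k := k) (Fin.natAdd n l).succ) = 0 := by
          simp [ia]
        have e2 : (ib (n := n) (k := k) (Fin.natAdd n l).succ) = l.succ := by
          simp [ib]
        have e3 : (ia (n := n) (k := k) 0) = 0 := rfl
        have e4 : (ib (n := n) (k := k) 0) = 0 := rfl
        change algebraMap Z L (z (ia (Fin.natAdd n l).succ)) * v (ib (Fin.natAdd n l).succ) /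
          (algebraMap Z L (z (ia 0)) * v (ib 0)) = _
        rw [e1, e2, e3, e4, Fin.addCases_right,
          mul_div_mul_left _ _ ((_root_.map_ne_zero _).2 (hz0 0))]
    rw [h2]
    exact h1
  exact (transfer (k := n + k) hy hL hx0 hE0 hDC hΓ ha1A hps' hup hN
    (fun j => hFmp N (f j)) hΩ hE1 hind (Δ' := D - C) (fun _ _ _ => rfl)
    (fun P hP h1 => by
      have h2 := lt_of_le_of_ne (hΓ0 P hP) (Ne.symm h1)
      linarith)).2

end

end Pool.Agent.T2h13.GA
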